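import Pool.Agent.Helper56.Un.E8Stmts

set_option autoImplicit false

namespace Pool.Agent.Helper19.Un

open scoped ComplexConjugate

theorem elat_r3 : Real.sqrt 3 * Real.sqrt 3 = 3 := Real.mul_self_sqrt (by norm_num)

theorem elat_th_ne : th ≠ 0 := by
  intro h
  have h1 := congrArg Complex.im h
  have h2 : th.im = Real.sqrt 3 := rfl
  rw [h2, Complex.zero_im] at h1
  have h3 := elat_r3
  rw [h1] at h3
  norm_num at h3

theorem elat_one : (1 : ℂ) ∈ Eis := ⟨1, 0, by simp⟩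

theorem elat_th : th ∈ Eis := ⟨1, 2, by
  apply Complex.ext
  · simp [th, om]
    norm_num
  · simp [th, om]
    ring⟩

theorem elat_norm {x : ℂ} (hx : x ∈ Eis) (h0 : x ≠ 0) : 1 ≤ ‖x‖ := by
  obtain ⟨a, b, rfl⟩ := hx
  have h1 : Complex.normSq ((a : ℂ) + b * om) = ((a ^ 2 - a * b + b ^ 2 : ℤ) : ℝ) := by
    have h := elat_r3
    rw [Complex.normSq_apply]
    simp only [om, Complex.add_re, Complex.add_im, Complex.mul_re, Complex.mul_im,
      Complex.intCast_re, Complex.intCast_im]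
    push_cast
    linear_combination ((b : ℝ) ^ 2 / 4) * h
  have h2 : 0 < Complex.normSq ((a : ℂ) + b * om) := Complex.normSq_pos.2 h0
  rw [h1] at h2
  have h3 : (1 : ℤ) ≤ a ^ 2 - a * b + b ^ 2 := by
    have : (0 : ℤ) < a ^ 2 - a * b + b ^ 2 := by exact_mod_cast h2
    omega
  have h4 : (1 : ℝ) ≤ Complex.normSq ((a : ℂ) + b * om) := by
    rw [h1]
    exact_mod_cast h3
  rw [Complex.normSq_eq_norm_sq] at h4
  nlinarith [norm_nonneg ((a : ℂ) + b * om)]

theorem elat_fin (R : ℝ) : {z : ℂ | z ∈ Eis ∧ ‖z‖ ≤ R}.Finite := by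
  have hfin : ((fun p : ℤ × ℤ => (p.1 : ℂ) + p.2 * om) ''
      (Set.Icc (-⌈2 * R⌉) ⌈2 * R⌉ ×ˢ Set.Icc (-⌈2 * R⌉) ⌈2 * R⌉)).Finite :=
    ((Set.finite_Icc _ _).prod (Set.finite_Icc _ _)).image _
  refine hfin.subset ?_
  rintro z ⟨⟨a, b, rfl⟩, hz⟩
  refine ⟨(a, b), ?_, rfl⟩
  have h3 := elat_r3
  have hs : 0 ≤ Real.sqrt 3 := Real.sqrt_nonneg 3
  have hs1 : 1 ≤ Real.sqrt 3 := by
    rw [Real.one_le_sqrt]
    norm_num
  have hre : ((a : ℂ) + b * om).re = a - b / 2 := by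
    simp only [om, Complex.add_re, Complex.mul_re, Complex.intCast_re, Complex.intCast_im]
    ring
  have him : ((a : ℂ) + b * om).im = b * Real.sqrt 3 / 2 := by
    simp only [om, Complex.add_im, Complex.mul_im, Complex.intCast_re, Complex.intCast_im]
    ring
  have e1 : |(a : ℝ) - b / 2| ≤ R := by
    rw [← hre]
    exact (Complex.abs_re_le_norm _).trans hz
  have e2 : |(b : ℝ) * Real.sqrt 3 / 2| ≤ R := by
    rw [← him]
    exact (Complex.abs_im_le_norm _).trans hz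
  have hb : |(b : ℝ)| ≤ 2 * R := by
    have e3 : |(b : ℝ) * Real.sqrt 3 / 2| = |(b : ℝ)| * Real.sqrt 3 / 2 := by
      rw [abs_div, abs_mul, abs_of_nonneg hs]
      norm_num
    rw [e3] at e2
    nlinarith [abs_nonneg (b : ℝ)]
  have ha : |(a : ℝ)| ≤ 2 * R := by
    have e4 : (a : ℝ) = (a - b / 2) + b / 2 := by ring
    rw [e4]
    refine (abs_add_le _ _).trans ?_
    rw [abs_div]
    have : |(2 : ℝ)| = 2 := by norm_num
    rw [this]
    linarith
  have key : ∀ n : ℤ, |(n : ℝ)| ≤ 2 * R → n ∈ Set.Icc (-⌈2 * R⌉) ⌈2 * R⌉ := by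
    intro n hn
    rw [abs_le] at hn
    constructor
    · have h1 : (-⌈2 * R⌉ : ℝ) ≤ n := by
        have := Int.le_ceil (2 * R)
        linarith
      exact_mod_cast h1
    · have h1 : (n : ℝ) ≤ ⌈2 * R⌉ := hn.2.trans (Int.le_ceil _)
      exact_mod_cast h1
  exact ⟨key a ha, key b hb⟩

theorem elat_th_norm : ‖th‖ = Real.sqrt 3 := by
  have h : ‖th‖ ^ 2 = 3 := by
    rw [← Complex.normSq_eq_norm_sq, Complex.normSq_apply]
    simp only [th]
    rw [elat_r3]
    norm_num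
  rw [← Real.sqrt_sq (norm_nonneg th), h]

theorem elat_zero {x : ℂ} (h : x = 0) : ∃ k ∈ Eis, x = th * k :=
  ⟨0, Eis.zero_mem, by rw [h, mul_zero]⟩

theorem elat_pos {x : ℂ} (h : x = th) : ∃ k ∈ Eis, x = th * k :=
  ⟨1, elat_one, by rw [h, mul_one]⟩

theorem elat_neg {x : ℂ} (h : x = -th) : ∃ k ∈ Eis, x = th * k :=
  ⟨-1, Eis.neg_mem elat_one, by rw [h]; ring⟩

theorem elat_single (i : Fin 4) : (EuclideanSpace.single i th : E 4) ∈ E8L := by
  refine ⟨fun j => ?_, ?_, ?_⟩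
  · rw [PiLp.single_apply]
    split_ifs
    · exact elat_th
    · exact Eis.zero_mem
  · fin_cases i
    · exact elat_pos (by simp)
    · exact elat_pos (by simp)
    · exact elat_pos (by simp)
    · exact elat_zero (by simp)
  · fin_cases i
    · exact elat_zero (by simp)
    · exact elat_pos (by simp)
    · exact elat_neg (by simp)
    · exact elat_pos (by simp)

theorem st_ELAT : ST_ELAT := by
  have hth := elat_th_ne
  have hs1 : 1 ≤ Real.sqrt 3 := by
    rw [Real.one_le_sqrt]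
    norm_num
  refine ⟨⟨th, hth, ⟨1, elat_one, by simp⟩, E8L.zero_mem, Eis.zero_mem⟩, ⟨1, one_pos, ?_⟩, ?_, ?_⟩
  · intro x hx h0
    exact elat_norm hx.2.2 h0
  · intro R
    have hF := elat_fin R
    have hfin : ((fun q : (ℂ × (Fin 4 → ℂ) × ℂ) => ((th * q.1, WithLp.toLp 2 q.2.1, q.2.2) : V 4)) ''
        ({z : ℂ | z ∈ Eis ∧ ‖z‖ ≤ R} ×ˢ
          ({f : Fin 4 → ℂ | ∀ i, f i ∈ {z : ℂ | z ∈ Eis ∧ ‖z‖ ≤ R}} ×ˢ
            {z : ℂ | z ∈ Eis ∧ ‖z‖ ≤ R}))).Finite :=
      (hF.prod ((Set.Finite.pi' fun _ => hF).prod hF)).image _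
    refine hfin.subset ?_
    rintro x ⟨⟨⟨a, ha, h1⟩, ⟨h2, -, -⟩, h5⟩, hR⟩
    have n1 : ‖x.1‖ ≤ R := (norm_fst_le x).trans hR
    have n2 : ‖x.2‖ ≤ R := (norm_snd_le x).trans hR
    have n3 : ‖x.2.1‖ ≤ R := (norm_fst_le x.2).trans n2
    have n4 : ‖x.2.2‖ ≤ R := (norm_snd_le x.2).trans n2
    rw [h1, norm_mul, elat_th_norm] at n1
    refine ⟨(a, fun i => x.2.1 i, x.2.2), ⟨⟨ha, ?_⟩, ⟨fun i => ⟨h2 i, ?_⟩, ⟨h5, n4⟩⟩⟩, ?_⟩
    · nlinarith [norm_nonneg a]
    · exact (PiLp.norm_apply_le x.2.1 i).trans n3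
    · exact Prod.ext h1.symm (Prod.ext rfl rfl)
  · rw [eq_top_iff]
    rintro x -
    have v1 : ((th, 0, 0) : V 4) ∈ ME8 := ⟨⟨1, elat_one, by simp⟩, E8L.zero_mem, Eis.zero_mem⟩
    have v2 : ∀ i : Fin 4, ((0, EuclideanSpace.single i th, 0) : V 4) ∈ ME8 := fun i =>
      ⟨⟨0, Eis.zero_mem, by simp⟩, elat_single i, Eis.zero_mem⟩
    have v4 : ((0, 0, 1) : V 4) ∈ ME8 := ⟨⟨0, Eis.zero_mem, by simp⟩, E8L.zero_mem, elat_one⟩
    have hx : x = (x.1 / th) • ((th, 0, 0) : V 4) +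
        (((x.2.1 0) / th) • ((0, EuclideanSpace.single 0 th, 0) : V 4) +
        (((x.2.1 1) / th) • ((0, EuclideanSpace.single 1 th, 0) : V 4) +
        (((x.2.1 2) / th) • ((0, EuclideanSpace.single 2 th, 0) : V 4) +
        ((x.2.1 3) / th) • ((0, EuclideanSpace.single 3 th, 0) : V 4)))) +
        x.2.2 • ((0, 0, 1) : V 4) := by
      refine Prod.ext ?_ (Prod.ext ?_ ?_)
      · simp only [Prod.fst_add, Prod.smul_fst, smul_eq_mul, mul_zero, add_zero]
        field_simp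
      · simp only [Prod.fst_add, Prod.snd_add, Prod.smul_fst, Prod.smul_snd, smul_zero, zero_add,
          add_zero]
        ext i
        fin_cases i
        · simp
          field_simp
        · simp
          field_simp
        · simp
          field_simp
        · simp
          field_simp
      · simp only [Prod.snd_add, Prod.smul_snd, smul_eq_mul, mul_zero, zero_add, mul_one]
    rw [hx]
    refine Submodule.add_mem _ (Submodule.add_mem _ ?_ (Submodule.add_mem _ ?_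
      (Submodule.add_mem _ ?_ (Submodule.add_mem _ ?_ ?_)))) ?_
    · exact Submodule.smul_mem _ _ (Submodule.subset_span v1)
    · exact Submodule.smul_mem _ _ (Submodule.subset_span (v2 0))
    · exact Submodule.smul_mem _ _ (Submodule.subset_span (v2 1))
    · exact Submodule.smul_mem _ _ (Submodule.subset_span (v2 2))
    · exact Submodule.smul_mem _ _ (Submodule.subset_span (v2 3))
    · exact Submodule.smul_mem _ _ (Submodule.subset_span v4)

end Pool.Agent.Helper19.Un
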